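import Pool.Agent.V11113.BL.Reg

/-!
# The Balian-Low theorem: derivative of the modulations, and the contradiction
-/

set_option autoImplicit false
open Filter Topology ComplexConjugate MeasureTheory Set

namespace Pool.Agent.V11113.BL

open Pool.Agent.Results.MP_6c6e33_an.GaborOrbit (IsRieszBasis)
open Pool.Agent.Y165.GO (tfn mdn norm_mdn mdn_add mdn_sub coeFn_tfn)

variable {n : ℕ}

lemma mdn_single (j : Fin n) (t : ℝ) (x : Fin n → ℝ) :
    mdn (-(t • (Pi.single j (1 : ℝ) : Fin n → ℝ))) x =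
      Complex.exp (((-(2 * Real.pi * x j) * t : ℝ) : ℂ) * Complex.I) := by
  unfold mdn
  congr 3
  have : ∑ i, (-(t • (Pi.single j (1 : ℝ) : Fin n → ℝ))) i * x i = -(t * x j) := by
    rw [Finset.sum_eq_single j]
    · simp
    · intro b _ hb
      simp [hb]
    · intro h
      exact absurd (Finset.mem_univ _) h
  rw [this]
  ring

lemma exp_bound (θ : ℝ) (t : ℝ) (ht : 0 < t) :
    ‖((t : ℂ)⁻¹) * (Complex.exp (((θ * t : ℝ) : ℂ) * Complex.I) - 1)‖ ≤ |θ| := by
  have h1 : ‖Complex.exp (((θ * t : ℝ) : ℂ) * Complex.I) - 1‖ ≤ ‖(θ * t : ℝ)‖ := by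
    rw [mul_comm]
    exact Real.norm_exp_I_mul_ofReal_sub_one_le
  rw [norm_mul, norm_inv, Complex.norm_real, Real.norm_eq_abs, abs_of_pos ht]
  calc t⁻¹ * ‖Complex.exp (((θ * t : ℝ) : ℂ) * Complex.I) - 1‖ ≤ t⁻¹ * ‖(θ * t : ℝ)‖ := by
        gcongr
    _ = |θ| := by
        rw [Real.norm_eq_abs, abs_mul, abs_of_pos ht]
        field_simp

lemma exp_lim (θ : ℝ) (t : ℕ → ℝ) (ht : ∀ m, 0 < t m) (ht0 : Tendsto t atTop (𝓝 0)) :
    Tendsto (fun m => ((t m : ℂ)⁻¹) * (Complex.exp (((θ * t m : ℝ) : ℂ) * Complex.I) - 1)) atTop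
      (𝓝 ((θ : ℂ) * Complex.I)) := by
  have h1 : HasDerivAt (fun r : ℝ => Complex.exp (((θ * r : ℝ) : ℂ) * Complex.I))
      ((θ : ℂ) * Complex.I) 0 := by
    have h2 : HasDerivAt (fun r : ℝ => ((θ * r : ℝ) : ℂ) * Complex.I) ((θ : ℂ) * Complex.I) 0 := by
      have h3 : HasDerivAt (fun r : ℝ => θ * r) θ 0 := by
        simpa using (hasDerivAt_id (0 : ℝ)).const_mul θ
      exact (h3.ofReal_comp).mul_const _
    have h4 := h2.cexp
    simpa using h4
  rw [hasDerivAt_iff_tendsto_slope_zero] at h1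
  have h5 : Tendsto t atTop (𝓝[≠] 0) := by
    rw [tendsto_nhdsWithin_iff]
    exact ⟨ht0, Eventually.of_forall fun m => (ht m).ne'⟩
  have h6 := h1.comp h5
  refine h6.congr fun m => ?_
  simp only [Function.comp]
  rw [zero_add, mul_zero, Complex.real_smul]
  simp

/-- The modulations of `g` are differentiable. -/
theorem mod_deriv (j : Fin n) (g : (Fin n → ℝ) → ℂ) (hg : MemLp g 2 volume)
    (hx : Integrable (fun x : Fin n → ℝ => (x j) ^ 2 * ‖g x‖ ^ 2) volume)
    (t : ℕ → ℝ) (ht : ∀ m, 0 < t m) (ht0 : Tendsto t atTop (𝓝 0)) :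
    ∃ v : HH n, Tendsto (fun m => ((t m : ℂ)⁻¹) •
      (tfn 0 (-(t m • (Pi.single j (1 : ℝ) : Fin n → ℝ))) (hg.toLp g) - hg.toLp g)) atTop
        (𝓝 v) := by
  set q : (Fin n → ℝ) → ℂ := fun x => (((-(2 * Real.pi * x j) : ℝ) : ℂ) * Complex.I) * g x with hq
  have hqm : MemLp q 2 volume := by
    rw [memLp_two_iff_integrable_sq_norm]
    · have : (fun x => ‖q x‖ ^ 2) = fun x => (2 * Real.pi) ^ 2 * ((x j) ^ 2 * ‖g x‖ ^ 2) := by
        funext x
        rw [hq]
        simp only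
        rw [norm_mul, norm_mul, Complex.norm_I, Complex.norm_real, Real.norm_eq_abs, mul_one,
          mul_pow, sq_abs]
        ring
      rw [this]
      exact hx.const_mul _
    · apply AEStronglyMeasurable.mul _ hg.1
      apply Continuous.aestronglyMeasurable
      fun_prop
  refine ⟨hqm.toLp q, ?_⟩
  rw [tendsto_iff_norm_sub_tendsto_zero]
  have key : ∀ m, ‖((t m : ℂ)⁻¹) •
      (tfn 0 (-(t m • (Pi.single j (1 : ℝ) : Fin n → ℝ))) (hg.toLp g) - hg.toLp g) -
        hqm.toLp q‖ ^ 2 = ∫ x, ‖(((t m : ℂ)⁻¹) * (Complex.exp (((-(2 * Real.pi * x j) * t m : ℝ) :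
          ℂ) * Complex.I) - 1) - (((-(2 * Real.pi * x j) : ℝ) : ℂ) * Complex.I)) * g x‖ ^ 2 := by
    intro m
    rw [norm_sq_eq]
    apply integral_congr_ae
    have h1 := Lp.coeFn_sub (((t m : ℂ)⁻¹) •
      (tfn 0 (-(t m • (Pi.single j (1 : ℝ) : Fin n → ℝ))) (hg.toLp g) - hg.toLp g)) (hqm.toLp q)
    have h2 := Lp.coeFn_smul ((t m : ℂ)⁻¹)
      (tfn 0 (-(t m • (Pi.single j (1 : ℝ) : Fin n → ℝ))) (hg.toLp g) - hg.toLp g)
    have h3 := Lp.coeFn_sub
      (tfn 0 (-(t m • (Pi.single j (1 : ℝ) : Fin n → ℝ))) (hg.toLp g)) (hg.toLp g)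
    have h4 := coeFn_tfn 0 (-(t m • (Pi.single j (1 : ℝ) : Fin n → ℝ))) (hg.toLp g)
    filter_upwards [h1, h2, h3, h4, hg.coeFn_toLp, hqm.coeFn_toLp] with x e1 e2 e3 e4 e5 e6
    rw [e1, Pi.sub_apply, e2, Pi.smul_apply, e3, Pi.sub_apply, e4, sub_zero, e5, e6, mdn_single,
      smul_eq_mul]
    congr 2
    rw [hq]
    ring
  have hlim : Tendsto (fun m => ‖((t m : ℂ)⁻¹) •
      (tfn 0 (-(t m • (Pi.single j (1 : ℝ) : Fin n → ℝ))) (hg.toLp g) - hg.toLp g) -
        hqm.toLp q‖ ^ 2) atTop (𝓝 0) := by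
    simp only [key]
    have h0 : (0 : ℝ) = ∫ x : Fin n → ℝ, (0 : ℝ) := by simp
    rw [h0]
    apply tendsto_integral_of_dominated_convergence
      (fun x => (4 * Real.pi) ^ 2 * ((x j) ^ 2 * ‖g x‖ ^ 2))
    · intro m
      apply AEStronglyMeasurable.pow
      apply AEStronglyMeasurable.norm
      apply AEStronglyMeasurable.mul _ hg.1
      apply Continuous.aestronglyMeasurable
      fun_prop
    · exact hx.const_mul _
    · intro m
      filter_upwards with x
      rw [Real.norm_of_nonneg (sq_nonneg _), norm_mul, mul_pow, ← mul_assoc]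
      gcongr
      rw [← mul_pow]
      have h1 := exp_bound (-(2 * Real.pi * x j)) (t m) (ht m)
      have h2 : ‖(((-(2 * Real.pi * x j) : ℝ) : ℂ) * Complex.I)‖ = 2 * Real.pi * |x j| := by
        rw [norm_mul, Complex.norm_I, Complex.norm_real, Real.norm_eq_abs, mul_one, abs_neg,
          abs_mul, abs_of_pos (by positivity)]
      have h3 : |-(2 * Real.pi * x j)| = 2 * Real.pi * |x j| := by
        rw [abs_neg, abs_mul, abs_of_pos (by positivity)]
      have h4 := norm_sub_le (((t m : ℂ)⁻¹) * (Complex.exp (((-(2 * Real.pi * x j) * t m : ℝ) :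
          ℂ) * Complex.I) - 1)) (((-(2 * Real.pi * x j) : ℝ) : ℂ) * Complex.I)
      rw [h2] at h4
      rw [h3] at h1
      rw [sq_le_sq]
      rw [abs_of_nonneg (norm_nonneg _), abs_mul, abs_of_pos (by positivity : 0 < 4 * Real.pi)]
      linarith
    · filter_upwards with x
      have h1 := exp_lim (-(2 * Real.pi * x j)) t ht ht0
      have h2 : Tendsto (fun m => ‖(((t m : ℂ)⁻¹) * (Complex.exp (((-(2 * Real.pi * x j) * t m :
          ℝ) : ℂ) * Complex.I) - 1) - (((-(2 * Real.pi * x j) : ℝ) : ℂ) * Complex.I)) *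
          g x‖ ^ 2) atTop (𝓝 (‖((((-(2 * Real.pi * x j) : ℝ) : ℂ) * Complex.I) -
            (((-(2 * Real.pi * x j) : ℝ) : ℂ) * Complex.I)) * g x‖ ^ 2)) := by
        apply Tendsto.pow
        apply Tendsto.norm
        apply Tendsto.mul_const
        exact h1.sub_const _
      simpa using h2
  have := hlim.sqrt
  simpa using this

lemma mdn_cont (b : Fin n → ℝ) (a : ℕ → Fin n → ℝ) (ha : Tendsto a atTop (𝓝 0)) :
    Tendsto (fun m => mdn b (a m)) atTop (𝓝 1) := by
  have h1 : Continuous (fun x => mdn b x) := by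
    unfold mdn
    fun_prop
  have := (h1.tendsto 0).comp ha
  rwa [mdn_zero'] at this

lemma mdn_cont' (x : Fin n → ℝ) (b : ℕ → Fin n → ℝ) (hb : Tendsto b atTop (𝓝 0)) :
    Tendsto (fun m => mdn (b m) x) atTop (𝓝 1) := by
  have h1 : Continuous (fun b => mdn b x) := by
    unfold mdn
    fun_prop
  have := (h1.tendsto 0).comp hb
  rwa [mdn_zero] at this

/-- **The contradiction.** -/
theorem no_riesz (j : Fin n) (M : Matrix (Fin n ⊕ Fin n) (Fin n ⊕ Fin n) ℝ)
    (g h : (Fin n → ℝ) → ℂ) (hg : MemLp g 2 volume) (hh : MemLp h 2 volume)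
    (hw : IsWeakDeriv (Pi.single j (1 : ℝ) : Fin n → ℝ) g h)
    (hx : Integrable (fun x : Fin n → ℝ => (x j) ^ 2 * ‖g x‖ ^ 2) volume)
    (hR : IsRieszBasis (fun k => Wk M k (hg.toLp g))) : False := by
  obtain ⟨D, hDW, hDg⟩ := exists_gabor_data M (hg.toLp g) hR
  set e : Fin n → ℝ := Pi.single j (1 : ℝ) with he
  set t : ℕ → ℝ := fun m => 1 / ((m : ℝ) + 2) with ht
  have ht1 : ∀ m, 0 < t m := fun m => by rw [ht]; positivity
  have ht2 : ∀ m, t m ≤ 1 / 2 := fun m => by
    rw [ht]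
    simp only
    apply one_div_le_one_div_of_le (by norm_num)
    have : (0 : ℝ) ≤ m := Nat.cast_nonneg m
    linarith
  have ht0 : Tendsto t atTop (𝓝 0) := by
    have h1 : Tendsto (fun m : ℕ => (m : ℝ) + 2) atTop atTop :=
      tendsto_atTop_add_const_right _ _ tendsto_natCast_atTop_atTop
    have := h1.inv_tendsto_atTop
    refine this.congr fun m => ?_
    simp [ht]
  obtain ⟨v, hv⟩ := mod_deriv j g hg hx t ht1 ht0
  have hte : Tendsto (fun m => t m • e) atTop (𝓝 0) := by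
    have := ht0.smul_const e
    rwa [zero_smul] at this
  have hte' : Tendsto (fun m => -(t m • e)) atTop (𝓝 0) := by
    have := hte.neg
    rwa [neg_zero] at this
  set K := ‖hh.toLp h‖ with hK
  have hlip := lip_of_weak e g h hg hh hw
  have hU : ∀ m, D.Shift (tfn (t m • e) 0) (tfn (-(t m • e)) 0) (ph M (t m • e) 0) := by
    intro m
    have := shift_of M D hDW (t m • e) 0 (mdn_zero _)
    rwa [neg_zero] at this
  have hU' : ∀ m, D.Shift (tfn (-(t m • e)) 0) (tfn (t m • e) 0) (ph M (-(t m • e)) 0) := by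
    intro m
    have := shift_of M D hDW (-(t m • e)) 0 (mdn_zero _)
    rwa [neg_zero, neg_neg] at this
  have hV : ∀ m, D.Shift (tfn 0 (t m • e)) (tfn 0 (-(t m • e))) (ph M 0 (t m • e)) := by
    intro m
    have := shift_of M D hDW 0 (t m • e) (mdn_zero' _)
    rwa [neg_zero] at this
  have hVU' : ∀ m, ‖tfn 0 (-(t m • e)) (hg.toLp g) - hg.toLp g‖ = t m * ‖((t m : ℂ)⁻¹) •
      (tfn 0 (-(t m • e)) (hg.toLp g) - hg.toLp g)‖ := by
    intro m
    rw [norm_smul, norm_inv, Complex.norm_real, Real.norm_eq_abs, abs_of_pos (ht1 m), ← mul_assoc,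
      mul_inv_cancel₀ (ht1 m).ne', one_mul]
  refine D.limit_contra t ht1 (fun m => tfn (t m • e) 0) (fun m => tfn (-(t m • e)) 0)
    (fun m => tfn 0 (t m • e)) (fun m => tfn 0 (-(t m • e))) (fun m => ph M (t m • e) 0)
    (fun m => ph M (-(t m • e)) 0) (fun m => ph M 0 (t m • e)) hU hU' hV ?_
    (fun m => mdn (-(t m • e)) (-(t m • e))) ?_ 4 (by norm_num) ?_ K ?_ v ?_ ?_ ?_ ?_
  · intro m x
    rw [tfn_tfn, neg_add_cancel, neg_zero, add_zero, mdn_zero', one_smul, tfn_zero]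
  · intro m x
    rw [tfn_comm, mdn_zero]
    simp
  · intro m
    have h1 : mdn (-(t m • e)) (-(t m • e)) =
        Complex.exp (((2 * Real.pi * t m ^ 2 : ℝ) : ℂ) * Complex.I) := by
      rw [he, mdn_single]
      congr 3
      simp
      ring
    rw [h1]
    have h2 : |(1 - Complex.exp (((2 * Real.pi * t m ^ 2 : ℝ) : ℂ) * Complex.I)).im| ≤
        ‖1 - Complex.exp (((2 * Real.pi * t m ^ 2 : ℝ) : ℂ) * Complex.I)‖ :=
      Complex.abs_im_le_norm _
    refine le_trans ?_ h2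
    rw [Complex.sub_im, Complex.one_im, Complex.exp_ofReal_mul_I_im, zero_sub, abs_neg]
    refine le_trans ?_ (le_abs_self _)
    have h3 : 2 * Real.pi * t m ^ 2 ≤ Real.pi / 2 := by
      have h4 := ht2 m
      have h5 := ht1 m
      have h6 : t m ^ 2 ≤ 1 / 4 := by nlinarith
      nlinarith [Real.pi_pos]
    have h7 := Real.mul_le_sin (x := 2 * Real.pi * t m ^ 2) (by positivity) h3
    refine le_trans (le_of_eq ?_) h7
    field_simp
    ring
  · intro m
    have h1 := hlip (-(t m))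
    rw [abs_neg, abs_of_pos (ht1 m), neg_smul] at h1
    rw [hDg]
    rw [mul_comm]
    exact h1
  · rw [hDg]
    exact hv
  · rw [hDg, tendsto_iff_norm_sub_tendsto_zero]
    apply squeeze_zero (fun m => norm_nonneg _) (g := fun m => t m * K + t m * ‖((t m : ℂ)⁻¹) •
      (tfn 0 (-(t m • e)) (hg.toLp g) - hg.toLp g)‖)
    · intro m
      have h1 := hlip (t m)
      rw [abs_of_pos (ht1 m)] at h1
      rw [← hVU' m]
      calc ‖tfn 0 (-(t m • e)) (tfn (t m • e) 0 (hg.toLp g)) - hg.toLp g‖ =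
          ‖tfn 0 (-(t m • e)) (tfn (t m • e) 0 (hg.toLp g) - hg.toLp g) +
            (tfn 0 (-(t m • e)) (hg.toLp g) - hg.toLp g)‖ := by
            rw [map_sub]
            congr 1
            abel
        _ ≤ ‖tfn 0 (-(t m • e)) (tfn (t m • e) 0 (hg.toLp g) - hg.toLp g)‖ +
            ‖tfn 0 (-(t m • e)) (hg.toLp g) - hg.toLp g‖ := norm_add_le _ _
        _ ≤ _ := by
            rw [LinearIsometry.norm_map]
            gcongr
    · have h1 : Tendsto (fun m => t m * K) atTop (𝓝 (0 * K)) := ht0.mul_const K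
      have h2 := ht0.mul hv.norm
      have h3 := h1.add h2
      rwa [zero_mul, zero_mul, add_zero] at h3
  · intro k
    unfold ph
    have h1 := mdn_cont (Lb M k) _ hte'
    simpa [mdn_zero] using h1
  · intro k
    unfold ph
    have h1 := mdn_cont' (-(La M k)) _ hte
    have h2 := (Complex.continuous_conj.tendsto 1).comp h1
    rw [map_one] at h2
    have h3 : ∀ m, mdn (Lb M k) (-0) * conj (mdn (t m • e) (-(La M k))) =
        conj (mdn (t m • e) (-(La M k))) := by
      intro m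
      rw [neg_zero, mdn_zero', one_mul]
    simp only [h3]
    exact h2

end Pool.Agent.V11113.BL
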