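import Pool.Agent.Results.MP_6c6e33_an.GaborOrbit

/-!
# The Balian-Low theorem: the abstract argument

A Riesz basis which is the orbit of a vector under a projective family of isometries. The dual
basis is again such an orbit, and the window of the dual basis inherits Lipschitz conditions.
-/

set_option autoImplicit false
open Filter Topology

namespace Pool.Agent.V11113.BL

open Pool.Agent.Results.MP_6c6e33_an.GaborOrbit

section riesz

variable {H : Type*} [NormedAddCommGroup H] [InnerProductSpace ℂ H] {ι : Type*}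

/-- upper Riesz bound gives the Bessel property -/
lemma bes_of_upper (f : ι → H) (B : ℝ) (hB : 0 < B) (h : ∀ (s : Finset ι) (c : ι → ℂ),
    ‖∑ i ∈ s, c i • f i‖ ^ 2 ≤ B * ∑ i ∈ s, ‖c i‖ ^ 2) (x : H) :
    Summable (fun i => ‖(inner ℂ (f i) x : ℂ)‖ ^ 2) ∧
      ∑' i, ‖(inner ℂ (f i) x : ℂ)‖ ^ 2 ≤ B * ‖x‖ ^ 2 := by
  have key : ∀ s : Finset ι, ∑ i ∈ s, ‖(inner ℂ (f i) x : ℂ)‖ ^ 2 ≤ B * ‖x‖ ^ 2 := by
    intro s
    set S := ∑ i ∈ s, ‖(inner ℂ (f i) x : ℂ)‖ ^ 2 with hS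
    have hS0 : 0 ≤ S := Finset.sum_nonneg fun i _ => sq_nonneg _
    have h1 := h s (fun i => (inner ℂ (f i) x : ℂ))
    have h2 : (inner ℂ (∑ i ∈ s, (inner ℂ (f i) x : ℂ) • f i) x : ℂ) = (S : ℂ) := by
      rw [sum_inner, hS]
      push_cast
      apply Finset.sum_congr rfl
      intro i _
      rw [inner_smul_left, ← Complex.normSq_eq_conj_mul_self, Complex.normSq_eq_norm_sq]
      push_cast
      rfl
    have h3 : S ≤ ‖∑ i ∈ s, (inner ℂ (f i) x : ℂ) • f i‖ * ‖x‖ := by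
      have h4 := norm_inner_le_norm (𝕜 := ℂ) (∑ i ∈ s, (inner ℂ (f i) x : ℂ) • f i) x
      rw [h2, Complex.norm_real, Real.norm_of_nonneg hS0] at h4
      exact h4
    have h5 : S ^ 2 ≤ B * S * ‖x‖ ^ 2 := by
      calc S ^ 2 ≤ (‖∑ i ∈ s, (inner ℂ (f i) x : ℂ) • f i‖ * ‖x‖) ^ 2 := by gcongr
        _ = ‖∑ i ∈ s, (inner ℂ (f i) x : ℂ) • f i‖ ^ 2 * ‖x‖ ^ 2 := by ring
        _ ≤ B * S * ‖x‖ ^ 2 := by gcongr
    rcases eq_or_lt_of_le hS0 with h6 | h6
    · rw [← h6]; positivity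
    · have h7 : S * S ≤ S * (B * ‖x‖ ^ 2) := by nlinarith
      exact le_of_mul_le_mul_left h7 h6
  have hsum : Summable (fun i => ‖(inner ℂ (f i) x : ℂ)‖ ^ 2) :=
    summable_of_sum_le (fun i => sq_nonneg _) key
  exact ⟨hsum, hsum.tsum_le_of_sum_le key⟩

variable [CompleteSpace H]

/-- The dual basis of a Riesz basis. -/
theorem exists_dual [DecidableEq ι] (f : ι → H) (hf : IsRieszBasis f) :
    ∃ (G : ι → H) (C : ℝ), 0 < C ∧ (∀ k l, (inner ℂ (G k) (f l) : ℂ) = if l = k then 1 else 0) ∧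
      (∀ x, Summable (fun k => ‖(inner ℂ (G k) x : ℂ)‖ ^ 2) ∧
        ∑' k, ‖(inner ℂ (G k) x : ℂ)‖ ^ 2 ≤ C * ‖x‖ ^ 2) ∧
      (∀ x, Summable (fun k => ‖(inner ℂ (f k) x : ℂ)‖ ^ 2) ∧
        ∑' k, ‖(inner ℂ (f k) x : ℂ)‖ ^ 2 ≤ C * ‖x‖ ^ 2 ∧
        ‖x‖ ^ 2 ≤ C * ∑' k, ‖(inner ℂ (f k) x : ℂ)‖ ^ 2) ∧
      (∀ x y, HasSum (fun k => (inner ℂ y (f k) : ℂ) * (inner ℂ (G k) x : ℂ)) (inner ℂ y x)) := by
  obtain ⟨hd, A, B, hA, hB, h⟩ := hf
  have hbes : Bes f := ⟨B, hB, bes_of_upper f B hB fun s c => (h s c).2⟩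
  -- the synthesis operator is bounded below
  have hfin : ∀ (s : Finset ι) (c : ι → ℂ),
      sy f hbes (∑ i ∈ s, lp.single 2 i (c i)) = ∑ i ∈ s, c i • f i := by
    intro s c
    rw [map_sum]
    refine Finset.sum_congr rfl fun i _ => ?_
    exact sy_single f hbes i (c i)
  have hn : ∀ (s : Finset ι) (c : ι → ℂ),
      ‖(∑ i ∈ s, lp.single 2 i (c i) : lp (fun _ : ι => ℂ) 2)‖ ^ 2 = ∑ i ∈ s, ‖c i‖ ^ 2 := by
    intro s c
    have h := lp.norm_sum_single (E := fun _ : ι => ℂ) (p := 2) (by norm_num) c s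
    have e : ENNReal.toReal 2 = ((2 : ℕ) : ℝ) := by norm_num
    rw [e] at h
    simp only [Real.rpow_natCast] at h
    exact h
  have hlow : ∀ c : lp (fun _ : ι => ℂ) 2, A * ‖c‖ ^ 2 ≤ ‖sy f hbes c‖ ^ 2 := by
    intro c
    have h1 : Tendsto (fun s : Finset ι => ∑ i ∈ s, lp.single 2 i (c i)) atTop (𝓝 c) :=
      lp.hasSum_single (p := 2) (by norm_num) c
    have h2 : Tendsto (fun s : Finset ι => A * ‖(∑ i ∈ s, lp.single 2 i (c i) :
        lp (fun _ : ι => ℂ) 2)‖ ^ 2) atTop (𝓝 (A * ‖c‖ ^ 2)) := (h1.norm.pow 2).const_mul A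
    have h3 : Tendsto (fun s : Finset ι => ‖sy f hbes (∑ i ∈ s, lp.single 2 i (c i))‖ ^ 2) atTop
        (𝓝 (‖sy f hbes c‖ ^ 2)) := (((sy f hbes).continuous.tendsto c).comp h1).norm.pow 2
    refine le_of_tendsto_of_tendsto' h2 h3 fun s => ?_
    rw [hn, hfin]
    exact (h s _).1
  have hker : LinearMap.ker (sy f hbes : lp (fun _ : ι => ℂ) 2 →ₗ[ℂ] H) = ⊥ := by
    rw [LinearMap.ker_eq_bot']
    intro c hc
    have h1 := hlow c
    have hc' : sy f hbes c = 0 := hc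
    rw [hc', norm_zero] at h1
    have h2 : ‖c‖ ^ 2 = 0 := by
      have : 0 ≤ ‖c‖ ^ 2 := sq_nonneg _
      by_contra hne
      have h3 : 0 < ‖c‖ ^ 2 := lt_of_le_of_ne this (Ne.symm hne)
      have := mul_pos hA h3
      norm_num at h1
      linarith
    simpa using h2
  have hanti : AntilipschitzWith (Real.toNNReal (Real.sqrt A)⁻¹) (sy f hbes) := by
    apply AddMonoidHomClass.antilipschitz_of_bound
    intro c
    have h1 := hlow c
    have hs : 0 < Real.sqrt A := Real.sqrt_pos.2 hA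
    rw [Real.coe_toNNReal _ (by positivity), inv_mul_eq_div, le_div_iff₀ hs]
    apply le_of_sq_le_sq _ (norm_nonneg _)
    rw [mul_pow, Real.sq_sqrt hA.le]
    linarith
  have hclosed : IsClosed (LinearMap.range (sy f hbes : lp (fun _ : ι => ℂ) 2 →ₗ[ℂ] H) : Set H) :=
    hanti.isClosed_range (sy f hbes).uniformContinuous
  have hran : LinearMap.range (sy f hbes : lp (fun _ : ι => ℂ) 2 →ₗ[ℂ] H) = ⊤ := by
    rw [eq_top_iff]
    intro x _
    have h1 : (Submodule.span ℂ (Set.range f) : Set H) ⊆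
        (LinearMap.range (sy f hbes : lp (fun _ : ι => ℂ) 2 →ₗ[ℂ] H) : Set H) := by
      rw [SetLike.coe_subset_coe, Submodule.span_le]
      rintro _ ⟨i, rfl⟩
      refine ⟨lp.single 2 i 1, ?_⟩
      exact (sy_single f hbes i 1).trans (one_smul _ _)
    have h2 := closure_minimal h1 hclosed
    exact h2 (hd x)
  set V := ContinuousLinearEquiv.ofBijective (sy f hbes) hker hran with hV
  have hVs : ∀ c, V c = sy f hbes c := fun c => rfl
  set Vs : H →L[ℂ] lp (fun _ : ι => ℂ) 2 := (V.symm : H →L[ℂ] lp (fun _ : ι => ℂ) 2) with hVsd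
  have hVV : ∀ x, sy f hbes (Vs x) = x := fun x => V.apply_symm_apply x
  have hVV' : ∀ c, Vs (sy f hbes c) = c := fun c => V.symm_apply_apply c
  set G : ι → H := fun k => ContinuousLinearMap.adjoint Vs (lp.single 2 k 1) with hG
  have hGx : ∀ k x, (inner ℂ (G k) x : ℂ) = Vs x k := by
    intro k x
    rw [hG]
    simp only
    rw [ContinuousLinearMap.adjoint_inner_left, lp.inner_single_left]
    simp
  have hsq : ∀ x, ∑' k, ‖(inner ℂ (G k) x : ℂ)‖ ^ 2 = ‖Vs x‖ ^ 2 := by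
    intro x
    rw [norm_sq_lp]
    simp only [hGx]
  set C : ℝ := ‖Vs‖ ^ 2 + B + 1 with hC
  have hC0 : 0 < C := by positivity
  have hVx : ∀ x, ‖Vs x‖ ^ 2 ≤ C * ‖x‖ ^ 2 := by
    intro x
    have h1 := Vs.le_opNorm x
    have h2 : ‖Vs x‖ ^ 2 ≤ (‖Vs‖ * ‖x‖) ^ 2 := by gcongr
    have h3 : ‖Vs‖ ^ 2 ≤ C := by rw [hC]; linarith
    calc ‖Vs x‖ ^ 2 ≤ ‖Vs‖ ^ 2 * ‖x‖ ^ 2 := by rw [← mul_pow]; exact h2
      _ ≤ C * ‖x‖ ^ 2 := by gcongr
  refine ⟨G, C, hC0, ?_, ?_, ?_, ?_⟩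
  · intro k l
    rw [hGx]
    have h1 : f l = sy f hbes (lp.single 2 l 1) := by rw [sy_single, one_smul]
    rw [h1, hVV', lp.single_apply]
    by_cases hlk : l = k
    · subst hlk; simp
    · rw [if_neg hlk]
      have : k ≠ l := fun h => hlk h.symm
      simp [this]
  · intro x
    refine ⟨?_, by rw [hsq]; exact hVx x⟩
    simp only [hGx]
    exact summable_sq_lp (Vs x)
  · intro x
    obtain ⟨h1, h2⟩ := bes_of_upper f B hB (fun s c => (h s c).2) x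
    refine ⟨h1, h2.trans ?_, ?_⟩
    · have : B ≤ C := by rw [hC]; nlinarith [sq_nonneg ‖Vs‖]
      gcongr
    · rw [← norm_an f hbes x]
      have h3 : ((‖x‖ ^ 2 : ℝ) : ℂ) = inner ℂ (Vs x) (an f hbes x) := by
        rw [← sy_inner, hVV, inner_self_eq_norm_sq_to_K]
        norm_cast
      have h4 : ‖x‖ ^ 2 ≤ ‖Vs x‖ * ‖an f hbes x‖ := by
        have h5 := norm_inner_le_norm (𝕜 := ℂ) (Vs x) (an f hbes x)
        rw [← h3, Complex.norm_real, Real.norm_of_nonneg (sq_nonneg _)] at h5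
        exact h5
      have h5 := hVx x
      have h6 : (‖x‖ ^ 2) ^ 2 ≤ C * ‖x‖ ^ 2 * ‖an f hbes x‖ ^ 2 := by
        calc (‖x‖ ^ 2) ^ 2 ≤ (‖Vs x‖ * ‖an f hbes x‖) ^ 2 := by gcongr
          _ = ‖Vs x‖ ^ 2 * ‖an f hbes x‖ ^ 2 := by ring
          _ ≤ _ := by gcongr
      rcases eq_or_lt_of_le (sq_nonneg ‖x‖) with h7 | h7
      · rw [← h7]; positivity
      · have h8 : ‖x‖ ^ 2 * ‖x‖ ^ 2 ≤ ‖x‖ ^ 2 * (C * ‖an f hbes x‖ ^ 2) := by nlinarith
        exact le_of_mul_le_mul_left h8 h7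
  · intro x y
    have h1 := sy_hasSum f hbes (Vs x)
    rw [hVV] at h1
    have h2 := h1.mapL (innerSL ℂ y)
    simp only [map_smul, smul_eq_mul, innerSL_apply_apply] at h2
    simp only [hGx]
    simpa only [mul_comm] using h2

end riesz

end Pool.Agent.V11113.BL
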