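import Pool.Agent.V11113.BL.Orbit
import Pool.Agent.Y165.GO.Gab

/-!
# The Balian-Low theorem: time frequency shifts
-/

set_option autoImplicit false
open Filter Topology ComplexConjugate MeasureTheory

namespace Pool.Agent.V11113.BL

open Pool.Agent.Results.MP_6c6e33_an.GaborOrbit (IsRieszBasis)
open Pool.Agent.Y165.GO (tfn mdn norm_mdn mdn_add mdn_sub coeFn_tfn)

variable {n : ℕ}

/-- the Hilbert space -/
noncomputable abbrev HH (n : ℕ) := Lp ℂ 2 (volume : Measure (Fin n → ℝ))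

lemma mdn_zero (x : Fin n → ℝ) : mdn 0 x = 1 := by
  unfold mdn
  simp

lemma mdn_zero' (b : Fin n → ℝ) : mdn b 0 = 1 := by
  unfold mdn
  simp

lemma tfn_tfn (a b a' b' : Fin n → ℝ) (u : HH n) :
    tfn a b (tfn a' b' u) = mdn b' (-a) • tfn (a + a') (b + b') u := by
  apply Lp.ext
  have h1 := coeFn_tfn a b (tfn a' b' u)
  have h2 := Lp.coeFn_smul (mdn b' (-a)) (tfn (a + a') (b + b') u)
  have h3 := coeFn_tfn (a + a') (b + b') u
  have h4 := (measurePreserving_sub_right (volume : Measure (Fin n → ℝ))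
    a).quasiMeasurePreserving.ae (coeFn_tfn a' b' u)
  filter_upwards [h1, h2, h3, h4] with x hx1 hx2 hx3 hx4
  rw [hx1, hx2, Pi.smul_apply, hx3, hx4, smul_eq_mul, mdn_add, mdn_sub, sub_sub]
  ring

lemma tfn_zero (u : HH n) : tfn 0 0 u = u := by
  apply Lp.ext
  have h1 := coeFn_tfn 0 0 u
  filter_upwards [h1] with x hx1
  rw [hx1, mdn_zero, one_mul, sub_zero]

lemma norm_sq_eq (F : HH n) : ‖F‖ ^ 2 = ∫ x, ‖(F : (Fin n → ℝ) → ℂ) x‖ ^ 2 := by
  have h1 : ((‖F‖ ^ 2 : ℝ) : ℂ) = inner ℂ F F := by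
    rw [inner_self_eq_norm_sq_to_K]
    norm_cast
  rw [L2.inner_def] at h1
  have h2 : ∀ x, (inner ℂ ((F : (Fin n → ℝ) → ℂ) x) ((F : (Fin n → ℝ) → ℂ) x) : ℂ) =
      ((‖(F : (Fin n → ℝ) → ℂ) x‖ ^ 2 : ℝ) : ℂ) := by
    intro x
    rw [inner_self_eq_norm_sq_to_K]
    norm_cast
  simp only [h2] at h1
  rw [integral_complex_ofReal] at h1
  exact_mod_cast h1

/-- general commutation -/
lemma tfn_comm (a b a' b' : Fin n → ℝ) (u : HH n) :
    tfn a b (tfn a' b' u) = (mdn b' (-a) * conj (mdn b (-a'))) • tfn a' b' (tfn a b u) := by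
  rw [tfn_tfn, tfn_tfn, smul_smul, mul_assoc, Data.conj_mul_self (norm_mdn _ _), mul_one,
    add_comm a a', add_comm b b']

section lattice

variable (M : Matrix (Fin n ⊕ Fin n) (Fin n ⊕ Fin n) ℝ)

/-- translations of the lattice -/
noncomputable def La (k : Fin n ⊕ Fin n → ℤ) : Fin n → ℝ :=
  fun j => Matrix.mulVec M (fun i => ((k i : ℤ) : ℝ)) (Sum.inl j)

/-- modulations of the lattice -/
noncomputable def Lb (k : Fin n ⊕ Fin n → ℤ) : Fin n → ℝ :=
  fun j => Matrix.mulVec M (fun i => ((k i : ℤ) : ℝ)) (Sum.inr j)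

lemma mv_add (k l : Fin n ⊕ Fin n → ℤ) : (fun i => (((k + l) i : ℤ) : ℝ)) =
    (fun i => ((k i : ℤ) : ℝ)) + fun i => ((l i : ℤ) : ℝ) := by
  funext i
  simp

lemma La_add (k l : Fin n ⊕ Fin n → ℤ) : La M (k + l) = La M k + La M l := by
  funext j
  unfold La
  rw [mv_add, Matrix.mulVec_add]
  rfl

lemma Lb_add (k l : Fin n ⊕ Fin n → ℤ) : Lb M (k + l) = Lb M k + Lb M l := by
  funext j
  unfold Lb
  rw [mv_add, Matrix.mulVec_add]
  rfl

lemma La_zero : La M 0 = 0 := by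
  have := La_add M 0 0
  rw [add_zero] at this
  simpa using this

lemma Lb_zero : Lb M 0 = 0 := by
  have := Lb_add M 0 0
  rw [add_zero] at this
  simpa using this

/-- the lattice shifts -/
noncomputable def Wk (k : Fin n ⊕ Fin n → ℤ) : HH n →ₗᵢ[ℂ] HH n := tfn (La M k) (Lb M k)

/-- the data of a Riesz basis -/
theorem exists_gabor_data (G : HH n) (hR : IsRieszBasis (fun k => Wk M k G)) :
    ∃ D : Data (HH n) (Fin n ⊕ Fin n → ℤ), D.W = Wk M ∧ D.g = G := by
  refine exists_data (Wk M) (fun k l => mdn (Lb M l) (-(La M k))) G ?_ ?_ ?_ ?_ hR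
  · intro x
    unfold Wk
    rw [La_zero, Lb_zero]
    exact tfn_zero x
  · intro k l x
    unfold Wk
    rw [tfn_tfn, La_add, Lb_add]
  · intro k l
    exact norm_mdn _ _
  · intro k
    rw [Lb_zero]
    exact mdn_zero _

/-- phase factors -/
noncomputable def ph (a b : Fin n → ℝ) (k : Fin n ⊕ Fin n → ℤ) : ℂ :=
  mdn (Lb M k) (-a) * conj (mdn b (-(La M k)))

lemma shift_of (D : Data (HH n) (Fin n ⊕ Fin n → ℤ)) (hD : D.W = Wk M) (a b : Fin n → ℝ)
    (hab : mdn b a = 1) : D.Shift (tfn a b) (tfn (-a) (-b)) (ph M a b) := by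
  refine ⟨?_, ?_, ?_, ?_⟩
  · intro x
    rw [tfn_tfn, add_neg_cancel, add_neg_cancel, tfn_zero]
    have : mdn (-b) (-a) = 1 := by
      rw [← hab]
      unfold mdn
      congr 3
      simp
    rw [this, one_smul]
  · intro k x
    rw [hD]
    exact tfn_comm _ _ _ _ _
  · intro k
    unfold ph
    rw [norm_mul, RCLike.norm_conj, norm_mdn, norm_mdn, one_mul]
  · unfold ph
    rw [La_zero, Lb_zero, mdn_zero, neg_zero, mdn_zero']
    simp

end lattice

end Pool.Agent.V11113.BL
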