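import Pool.Agent.V11113.BL.Abs

/-!
# The Balian-Low theorem: orbits of projective families of isometries
-/

set_option autoImplicit false
open Filter Topology ComplexConjugate

namespace Pool.Agent.V11113.BL

open Pool.Agent.Results.MP_6c6e33_an.GaborOrbit

variable {H : Type*} [NormedAddCommGroup H] [InnerProductSpace ℂ H] {ι : Type*} [AddCommGroup ι]

/-- The data: a projective family `W` of isometries, a vector `g` whose orbit is a Riesz basis and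
a vector `h` whose orbit is the dual basis. -/
structure Data (H : Type*) [NormedAddCommGroup H] [InnerProductSpace ℂ H] (ι : Type*)
    [AddCommGroup ι] where
  W : ι → H →ₗᵢ[ℂ] H
  κ : ι → ι → ℂ
  g : H
  h : H
  C : ℝ
  hW0 : ∀ x, W 0 x = x
  hWW : ∀ k l x, W k (W l x) = κ k l • W (k + l) x
  hκ : ∀ k l, ‖κ k l‖ = 1
  hκ0 : ∀ k, κ k 0 = 1
  hC : 0 < C
  bio0 : (inner ℂ h g : ℂ) = 1
  bio : ∀ l, l ≠ 0 → (inner ℂ h (W l g) : ℂ) = 0
  besh : ∀ x, Summable (fun k => ‖(inner ℂ (W k h) x : ℂ)‖ ^ 2) ∧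
        ∑' k, ‖(inner ℂ (W k h) x : ℂ)‖ ^ 2 ≤ C * ‖x‖ ^ 2
  besg : ∀ x, Summable (fun k => ‖(inner ℂ (W k g) x : ℂ)‖ ^ 2) ∧
        ∑' k, ‖(inner ℂ (W k g) x : ℂ)‖ ^ 2 ≤ C * ‖x‖ ^ 2 ∧
        ‖x‖ ^ 2 ≤ C * ∑' k, ‖(inner ℂ (W k g) x : ℂ)‖ ^ 2
  exp : ∀ x y, HasSum (fun k => (inner ℂ y (W k g) : ℂ) * (inner ℂ (W k h) x : ℂ)) (inner ℂ y x)

/-- Existence of the data. -/
theorem exists_data [CompleteSpace H] (W : ι → H →ₗᵢ[ℂ] H) (κ : ι → ι → ℂ) (g : H)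
    (hW0 : ∀ x, W 0 x = x) (hWW : ∀ k l x, W k (W l x) = κ k l • W (k + l) x)
    (hκ : ∀ k l, ‖κ k l‖ = 1) (hκ0 : ∀ k, κ k 0 = 1) (hR : IsRieszBasis (fun k => W k g)) :
    ∃ D : Data H ι, D.W = W ∧ D.g = g := by
  classical
  obtain ⟨G, C, hC, h1, h2, h3, h4⟩ := exists_dual (fun k => W k g) hR
  have hdense : Dense (Submodule.span ℂ (Set.range fun k => W k g) : Set H) := hR.1
  have hWG : ∀ k, W k (G 0) = G k := by
    intro k
    have key : ∀ l, (inner ℂ (W k (G 0)) (W l g) : ℂ) = inner ℂ (G k) (W l g) := by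
      intro l
      have e1 : W k (W (l - k) g) = κ k (l - k) • W l g := by
        rw [hWW, add_sub_cancel]
      have e2 : W l g = (κ k (l - k))⁻¹ • W k (W (l - k) g) := by
        rw [e1, smul_smul, inv_mul_cancel₀, one_smul]
        intro h0
        have := hκ k (l - k)
        rw [h0, norm_zero] at this
        exact zero_ne_one this
      rw [h1, e2, inner_smul_right, (W k).inner_map_map, h1]
      by_cases hlk : l = k
      · subst hlk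
        rw [sub_self, hκ0]
        simp
      · rw [if_neg hlk, if_neg (sub_ne_zero.2 hlk), mul_zero]
    have hd2 : Dense (Set.range fun l => W l g) ∨ True := Or.inr trivial
    apply hdense.eq_of_inner_left (𝕜 := ℂ)
    intro x hx
    have hx' : x ∈ Submodule.span ℂ (Set.range fun k => W k g) := hx
    clear hx hd2
    induction hx' using Submodule.span_induction with
    | mem x hx =>
      obtain ⟨l, rfl⟩ := hx
      exact key l
    | zero => rw [inner_zero_right, inner_zero_right]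
    | add x y _ _ hx hy => rw [inner_add_right, inner_add_right, hx, hy]
    | smul c x _ hx => rw [inner_smul_right, inner_smul_right, hx]
  refine ⟨⟨W, κ, g, G 0, C, hW0, hWW, hκ, hκ0, hC, ?_, ?_, ?_, ?_, ?_⟩, rfl, rfl⟩
  · have := h1 0 0
    rw [hW0, if_pos rfl] at this
    exact this
  · intro l hl
    have := h1 0 l
    rw [if_neg hl] at this
    exact this
  · intro x
    simp only [hWG]
    exact h2 x
  · exact h3
  · intro x y
    simp only [hWG]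
    exact h4 x y

namespace Data

variable (D : Data H ι)

/-- The isometry `E` has inverse `E'` and commutes with the family `W` up to phase factors. -/
structure Shift (E E' : H →ₗᵢ[ℂ] H) (χ : ι → ℂ) : Prop where
  inv : ∀ x, E (E' x) = x
  comm : ∀ k x, E (D.W k x) = χ k • D.W k (E x)
  norm : ∀ k, ‖χ k‖ = 1
  zero : χ 0 = 1

variable {D}

lemma conj_mul_self {z : ℂ} (hz : ‖z‖ = 1) : conj z * z = 1 := by
  rw [← Complex.normSq_eq_conj_mul_self, Complex.normSq_eq_norm_sq, hz]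
  norm_num

lemma mul_conj_self {z : ℂ} (hz : ‖z‖ = 1) : z * conj z = 1 := by
  rw [mul_comm, conj_mul_self hz]

lemma move (k : ι) (x y : H) : (inner ℂ (D.W k x) y : ℂ) =
    conj (D.κ (-k) k) * inner ℂ x (D.W (-k) y) := by
  rw [← (D.W (-k)).inner_map_map, D.hWW, neg_add_cancel, D.hW0, inner_smul_left]

lemma norm_move (k : ι) (x y : H) : ‖(inner ℂ (D.W k x) y : ℂ)‖ =
    ‖(inner ℂ (D.W (-k) y) x : ℂ)‖ := by
  rw [move, norm_mul, RCLike.norm_conj, D.hκ, one_mul, norm_inner_symm]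

lemma tsum_neg_h (w : H) : Summable (fun k => ‖(inner ℂ (D.W (-k) D.h) w : ℂ)‖ ^ 2) ∧
    ∑' k, ‖(inner ℂ (D.W (-k) D.h) w : ℂ)‖ ^ 2 ≤ D.C * ‖w‖ ^ 2 := by
  obtain ⟨h1, h2⟩ := D.besh w
  constructor
  · exact (Equiv.neg ι).summable_iff.2 h1
  · have h3 := (Equiv.neg ι).tsum_eq (fun k => ‖(inner ℂ (D.W k D.h) w : ℂ)‖ ^ 2)
    simp only [Equiv.neg_apply] at h3
    rw [h3]
    exact h2

/-- **Transfer.** The dual window is at least as regular as the window. -/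
lemma transfer {E E' : H →ₗᵢ[ℂ] H} {χ : ι → ℂ} (hE : D.Shift E E' χ) :
    ‖E D.h - D.h‖ ≤ D.C * ‖E D.g - D.g‖ := by
  set w := E D.g - D.g with hw
  set u := E D.h - D.h with hu
  have key : ∀ k, ‖(inner ℂ (D.W k D.g) (E' u) : ℂ)‖ = ‖(inner ℂ (D.W (-k) D.h) w : ℂ)‖ := by
    intro k
    have e1 : (inner ℂ (D.W k D.g) (E' u) : ℂ) = conj (χ k) * inner ℂ (D.W k (E D.g)) u := by
      rw [← E.inner_map_map, hE.inv, hE.comm, inner_smul_left]
    have e2 : (inner ℂ (D.W k (E D.g)) (E D.h) : ℂ) = inner ℂ (D.W k D.g) D.h := by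
      have e3 : (inner ℂ (E (D.W k D.g)) (E D.h) : ℂ) =
          conj (χ k) * inner ℂ (D.W k (E D.g)) (E D.h) := by
        rw [hE.comm, inner_smul_left]
      rw [E.inner_map_map] at e3
      have e5 : (inner ℂ (D.W k (E D.g)) (E D.h) : ℂ) = χ k * inner ℂ (D.W k D.g) D.h := by
        rw [e3, ← mul_assoc, mul_conj_self (hE.norm k), one_mul]
      rw [e5]
      by_cases h0 : k = 0
      · rw [h0, hE.zero, one_mul]
      · have e4 : (inner ℂ (D.W k D.g) D.h : ℂ) = 0 := by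
          rw [← inner_conj_symm, D.bio k h0, map_zero]
        rw [e4, mul_zero]
    have e3 : (inner ℂ (D.W k (E D.g)) u : ℂ) = -inner ℂ (D.W k w) D.h := by
      rw [hu, inner_sub_right, e2, hw, map_sub, inner_sub_left]
      ring
    rw [e1, norm_mul, RCLike.norm_conj, hE.norm, one_mul, e3, norm_neg, norm_move]
  obtain ⟨-, -, h1⟩ := D.besg (E' u)
  simp only [key] at h1
  rw [E'.norm_map] at h1
  have h2 := (tsum_neg_h (D := D) w).2
  have h3 : ‖u‖ ^ 2 ≤ (D.C * ‖w‖) ^ 2 := by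
    have := D.hC
    calc ‖u‖ ^ 2 ≤ D.C * ∑' k, ‖(inner ℂ (D.W (-k) D.h) w : ℂ)‖ ^ 2 := h1
      _ ≤ D.C * (D.C * ‖w‖ ^ 2) := by gcongr
      _ = (D.C * ‖w‖) ^ 2 := by ring
  have := D.hC
  exact le_of_sq_le_sq h3 (by positivity)

/-- one term of the expansion -/
lemma term {E E' : H →ₗᵢ[ℂ] H} {χ : ι → ℂ} (hE : D.Shift E E' χ) (a b : H)
    (hab : ∀ k, k ≠ 0 → (inner ℂ a (D.W k b) : ℂ) = 0) (k : ι) :
    (inner ℂ (D.W k a) (E b - b) : ℂ) =
      conj (D.κ (-k) k) * (conj (χ (-k)) * inner ℂ (E' a - a) (D.W (-k) b)) := by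
  have e1 : D.W (-k) (E b) = conj (χ (-k)) • E (D.W (-k) b) := by
    rw [hE.comm, smul_smul, conj_mul_self (hE.norm _), one_smul]
  have e2 : ∀ y, (inner ℂ a (E y) : ℂ) = inner ℂ (E' a) y := by
    intro y
    rw [← E.inner_map_map (E' a) y, hE.inv]
  rw [move, map_sub, inner_sub_right, e1, inner_smul_right, e2, inner_sub_left]
  congr 1
  by_cases h0 : k = 0
  · subst h0
    rw [neg_zero, hE.zero, map_one, one_mul, one_mul]
  · rw [hab (-k) (neg_ne_zero.2 h0), sub_zero, sub_zero]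

lemma bio' (k : ι) (hk : k ≠ 0) : (inner ℂ D.g (D.W k D.h) : ℂ) = 0 := by
  rw [← inner_conj_symm, move, D.bio (-k) (neg_ne_zero.2 hk), mul_zero, map_zero]

/-- **The identity.** -/
lemma identity {U U' V V' : H →ₗᵢ[ℂ] H} {χ ψ : ι → ℂ} (hU : D.Shift U U' χ)
    (hV : D.Shift V V' ψ) :
    HasSum (fun k => (conj (χ (-k)) * ψ (-k)) * ((inner ℂ (U' D.h - D.h) (D.W (-k) D.g) : ℂ) *
      inner ℂ (D.W (-k) D.h) (V' D.g - D.g))) (inner ℂ (V D.h - D.h) (U D.g - D.g)) := by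
  have h1 := D.exp (U D.g - D.g) (V D.h - D.h)
  have h2 : ∀ k, (inner ℂ (V D.h - D.h) (D.W k D.g) : ℂ) *
      (inner ℂ (D.W k D.h) (U D.g - D.g) : ℂ) =
      (conj (χ (-k)) * ψ (-k)) * ((inner ℂ (U' D.h - D.h) (D.W (-k) D.g) : ℂ) *
      inner ℂ (D.W (-k) D.h) (V' D.g - D.g)) := by
    intro k
    have e1 := term hU D.h D.g (fun k hk => D.bio k hk) k
    have e2 := term hV D.g D.h (fun k hk => bio' k hk) k
    have e3 : (inner ℂ (V D.h - D.h) (D.W k D.g) : ℂ) =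
        D.κ (-k) k * (ψ (-k) * inner ℂ (D.W (-k) D.h) (V' D.g - D.g)) := by
      rw [← inner_conj_symm, e2, map_mul, map_mul, Complex.conj_conj, Complex.conj_conj,
        inner_conj_symm]
    rw [e1, e3]
    have e4 := mul_conj_self (D.hκ (-k) k)
    linear_combination ((ψ (-k) * inner ℂ (D.W (-k) D.h) (V' D.g - D.g)) *
      (conj (χ (-k)) * inner ℂ (U' D.h - D.h) (D.W (-k) D.g))) * e4
  simpa only [h2] using h1

lemma identity' (U' V' : H →ₗᵢ[ℂ] H) :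
    HasSum (fun k => (inner ℂ (U' D.h - D.h) (D.W (-k) D.g) : ℂ) *
      inner ℂ (D.W (-k) D.h) (V' D.g - D.g)) (inner ℂ (U' D.h - D.h) (V' D.g - D.g)) :=
  (Equiv.neg ι).hasSum_iff.2 (D.exp (V' D.g - D.g) (U' D.h - D.h))

/-- the commutator -/
lemma commutator {U U' V V' : H →ₗᵢ[ℂ] H} {χ : ι → ℂ} (hU : D.Shift U U' χ)
    (hV' : ∀ x, V' (V x) = x) {ω : ℂ}
    (hω : ∀ x, U (V' x) = ω • V' (U x)) :
    (inner ℂ (V D.h - D.h) (U D.g - D.g) : ℂ) - inner ℂ (U' D.h - D.h) (V' D.g - D.g) =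
      (1 - ω) * inner ℂ D.h (V' (U D.g)) := by
  have e1 : ∀ x y, (inner ℂ (U' x) y : ℂ) = inner ℂ x (U y) := by
    intro x y
    rw [← U.inner_map_map (U' x) y, hU.inv]
  have e2 : ∀ x y, (inner ℂ (V x) y : ℂ) = inner ℂ x (V' y) := by
    intro x y
    rw [← V'.inner_map_map (V x) y, hV']
  simp only [inner_sub_left, inner_sub_right, e1, e2, hω, inner_smul_right]
  ring

/-- **The estimate of the commutator.** -/
lemma estimate {U U' V V' : H →ₗᵢ[ℂ] H} {χ ψ χ' : ι → ℂ} (hU : D.Shift U U' χ)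
    (hU' : D.Shift U' U χ')
    (hV : D.Shift V V' ψ) (hV' : ∀ x, V' (V x) = x) {ω : ℂ}
    (hω : ∀ x, U (V' x) = ω • V' (U x)) :
    (‖1 - ω‖ * ‖(inner ℂ D.h (V' (U D.g)) : ℂ)‖) ^ 2 ≤
      D.C ^ 3 * ‖U' D.g - D.g‖ ^ 2 * ∑' k, ‖conj (χ k) * ψ k - 1‖ ^ 2 *
        ‖(inner ℂ (D.W k D.h) (V' D.g - D.g) : ℂ)‖ ^ 2 := by
  have hC := D.hC
  have h1 := (identity hU hV).sub (identity' (D := D) U' V')
  rw [commutator hU hV' hω] at h1
  set a : ι → ℝ := fun k => ‖(inner ℂ (U' D.h - D.h) (D.W (-k) D.g) : ℂ)‖ with ha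
  set b : ι → ℝ := fun k => ‖conj (χ (-k)) * ψ (-k) - 1‖ *
    ‖(inner ℂ (D.W (-k) D.h) (V' D.g - D.g) : ℂ)‖ with hb
  have hnorm : ∀ k, ‖(conj (χ (-k)) * ψ (-k)) * ((inner ℂ (U' D.h - D.h) (D.W (-k) D.g) : ℂ) *
      inner ℂ (D.W (-k) D.h) (V' D.g - D.g)) - (inner ℂ (U' D.h - D.h) (D.W (-k) D.g) : ℂ) *
      inner ℂ (D.W (-k) D.h) (V' D.g - D.g)‖ = a k * b k := by
    intro k
    have e : (conj (χ (-k)) * ψ (-k)) * ((inner ℂ (U' D.h - D.h) (D.W (-k) D.g) : ℂ) *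
      inner ℂ (D.W (-k) D.h) (V' D.g - D.g)) - (inner ℂ (U' D.h - D.h) (D.W (-k) D.g) : ℂ) *
      inner ℂ (D.W (-k) D.h) (V' D.g - D.g) =
      (conj (χ (-k)) * ψ (-k) - 1) * ((inner ℂ (U' D.h - D.h) (D.W (-k) D.g) : ℂ) *
      inner ℂ (D.W (-k) D.h) (V' D.g - D.g)) := by ring
    rw [e, norm_mul, norm_mul, ha, hb]
    ring
  -- summability of the squares
  have hsa : Summable (fun k => a k ^ 2) ∧ ∑' k, a k ^ 2 ≤ D.C * ‖U' D.h - D.h‖ ^ 2 := by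
    obtain ⟨h2, h3, -⟩ := D.besg (U' D.h - D.h)
    have e : ∀ k, a k ^ 2 = ‖(inner ℂ (D.W (-k) D.g) (U' D.h - D.h) : ℂ)‖ ^ 2 := by
      intro k
      rw [ha]
      simp only
      rw [norm_inner_symm]
    simp only [e]
    constructor
    · exact (Equiv.neg ι).summable_iff.2 h2
    · have h4 := (Equiv.neg ι).tsum_eq
        (fun k => ‖(inner ℂ (D.W k D.g) (U' D.h - D.h) : ℂ)‖ ^ 2)
      simp only [Equiv.neg_apply] at h4
      rw [h4]
      exact h3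
  have hm : ∀ k, ‖conj (χ k) * ψ k - 1‖ ≤ 2 := by
    intro k
    refine (norm_sub_le _ _).trans ?_
    rw [norm_mul, RCLike.norm_conj, hU.norm, hV.norm, norm_one]
    norm_num
  have hsb : Summable (fun k => b k ^ 2) ∧ ∑' k, b k ^ 2 = ∑' k, ‖conj (χ k) * ψ k - 1‖ ^ 2 *
        ‖(inner ℂ (D.W k D.h) (V' D.g - D.g) : ℂ)‖ ^ 2 := by
    obtain ⟨h2, -⟩ := D.besh (V' D.g - D.g)
    have h3 : Summable (fun k => ‖conj (χ k) * ψ k - 1‖ ^ 2 *
        ‖(inner ℂ (D.W k D.h) (V' D.g - D.g) : ℂ)‖ ^ 2) := by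
      apply Summable.of_nonneg_of_le (fun k => by positivity) _ (h2.mul_left 4)
      intro k
      have := hm k
      have : ‖conj (χ k) * ψ k - 1‖ ^ 2 ≤ 4 := by nlinarith [norm_nonneg (conj (χ k) * ψ k - 1)]
      gcongr
    obtain ⟨F, hF⟩ : ∃ F : ι → ℝ, F = fun k => ‖conj (χ k) * ψ k - 1‖ ^ 2 *
        ‖(inner ℂ (D.W k D.h) (V' D.g - D.g) : ℂ)‖ ^ 2 := ⟨_, rfl⟩
    rw [← hF] at h3
    have e : ∀ k, b k ^ 2 = F (Equiv.neg ι k) := by
      intro k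
      rw [hb, hF]
      simp only [Equiv.neg_apply]
      ring
    constructor
    · have h4 : Summable (F ∘ Equiv.neg ι) := (Equiv.neg ι).summable_iff.2 h3
      exact h4.congr fun k => (e k).symm
    · rw [tsum_congr e, (Equiv.neg ι).tsum_eq F, hF]
  have hhol : (2 : ℝ).HolderConjugate 2 := Real.HolderConjugate.two_two
  have hcs := Real.summable_and_inner_le_Lp_mul_Lq_tsum_of_nonneg (p := 2) (q := 2) hhol
    (f := a) (g := b) (fun k => norm_nonneg _) (fun k => by positivity)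
    (by simpa only [Real.rpow_two] using hsa.1) (by simpa only [Real.rpow_two] using hsb.1)
  simp only [Real.rpow_two] at hcs
  have h2 : ‖(1 - ω) * (inner ℂ D.h (V' (U D.g)) : ℂ)‖ ≤ ∑' k, a k * b k :=
    h1.norm_le_of_bounded hcs.1.hasSum (fun k => (hnorm k).le)
  rw [norm_mul] at h2
  have hA0 : 0 ≤ ∑' k, a k ^ 2 := tsum_nonneg fun k => sq_nonneg _
  have hB0 : 0 ≤ ∑' k, b k ^ 2 := tsum_nonneg fun k => sq_nonneg _
  have h3 := h2.trans hcs.2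
  have h4 : (‖1 - ω‖ * ‖(inner ℂ D.h (V' (U D.g)) : ℂ)‖) ^ 2 ≤
      (∑' k, a k ^ 2) * ∑' k, b k ^ 2 := by
    calc (‖1 - ω‖ * ‖(inner ℂ D.h (V' (U D.g)) : ℂ)‖) ^ 2
        ≤ ((∑' k, a k ^ 2) ^ ((1 : ℝ) / 2) * (∑' k, b k ^ 2) ^ ((1 : ℝ) / 2)) ^ 2 := by gcongr
      _ = _ := by
        rw [mul_pow, ← Real.sqrt_eq_rpow, ← Real.sqrt_eq_rpow, Real.sq_sqrt hA0,
          Real.sq_sqrt hB0]
  refine h4.trans ?_
  rw [← hsb.2]
  have h5 := transfer hU'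
  have h6 : ∑' k, a k ^ 2 ≤ D.C ^ 3 * ‖U' D.g - D.g‖ ^ 2 := by
    calc ∑' k, a k ^ 2 ≤ D.C * ‖U' D.h - D.h‖ ^ 2 := hsa.2
      _ ≤ D.C * (D.C * ‖U' D.g - D.g‖) ^ 2 := by gcongr
      _ = _ := by ring
  gcongr

/-- **The contradiction in the limit.** -/
theorem limit_contra (D : Data H ι) (ε : ℕ → ℝ) (hε : ∀ n, 0 < ε n)
    (U U' V V' : ℕ → H →ₗᵢ[ℂ] H) (χ χ' ψ : ℕ → ι → ℂ)
    (hU : ∀ n, D.Shift (U n) (U' n) (χ n)) (hU' : ∀ n, D.Shift (U' n) (U n) (χ' n))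
    (hV : ∀ n, D.Shift (V n) (V' n) (ψ n)) (hV' : ∀ n x, V' n (V n x) = x)
    (ω : ℕ → ℂ) (hω : ∀ n x, U n (V' n x) = ω n • V' n (U n x)) (c : ℝ) (hc : 0 < c)
    (hωc : ∀ n, c * ε n ^ 2 ≤ ‖1 - ω n‖) (K : ℝ) (hK : ∀ n, ‖U' n D.g - D.g‖ ≤ K * ε n)
    (v : H) (hv : Tendsto (fun n => ((ε n : ℂ)⁻¹) • (V' n D.g - D.g)) atTop (𝓝 v))
    (hUV : Tendsto (fun n => V' n (U n D.g)) atTop (𝓝 D.g))
    (hχ : ∀ k, Tendsto (fun n => χ n k) atTop (𝓝 1))
    (hψ : ∀ k, Tendsto (fun n => ψ n k) atTop (𝓝 1)) : False := by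
  have hC := D.hC
  set m : ℕ → ι → ℝ := fun n k => ‖conj (χ n k) * ψ n k - 1‖ ^ 2 with hm
  have hm0 : ∀ n k, 0 ≤ m n k := fun n k => sq_nonneg _
  have hm4 : ∀ n k, m n k ≤ 4 := by
    intro n k
    have h1 : ‖conj (χ n k) * ψ n k - 1‖ ≤ 2 := by
      refine (norm_sub_le _ _).trans ?_
      rw [norm_mul, RCLike.norm_conj, (hU n).norm, (hV n).norm, norm_one]
      norm_num
    rw [hm]
    simp only
    nlinarith [norm_nonneg (conj (χ n k) * ψ n k - 1)]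
  have hmlim : ∀ k, Tendsto (fun n => m n k) atTop (𝓝 0) := by
    intro k
    have h1 : Tendsto (fun n => ‖conj (χ n k) * ψ n k - 1‖ ^ 2) atTop
        (𝓝 (‖conj (1 : ℂ) * 1 - 1‖ ^ 2)) := by
      apply Tendsto.pow
      apply Tendsto.norm
      apply Tendsto.sub_const
      exact ((Complex.continuous_conj.tendsto 1).comp (hχ k)).mul (hψ k)
    simpa using h1
  set vn : ℕ → H := fun n => ((ε n : ℂ)⁻¹) • (V' n D.g - D.g) with hvn
  -- the sums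
  have hS1 : Tendsto (fun n => ∑' k, m n k * ‖(inner ℂ (D.W k D.h) v : ℂ)‖ ^ 2) atTop (𝓝 0) := by
    have h1 := tendsto_tsum_of_dominated_convergence (𝓕 := atTop)
      (f := fun (n : ℕ) k => m n k * ‖(inner ℂ (D.W k D.h) v : ℂ)‖ ^ 2)
      (g := fun _ => (0 : ℝ)) (bound := fun k => 4 * ‖(inner ℂ (D.W k D.h) v : ℂ)‖ ^ 2)
      ((D.besh v).1.mul_left 4) (fun k => by
        have := (hmlim k).mul_const (‖(inner ℂ (D.W k D.h) v : ℂ)‖ ^ 2)
        rwa [zero_mul] at this) (Eventually.of_forall fun n k => by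
        rw [Real.norm_of_nonneg (mul_nonneg (hm0 n k) (sq_nonneg _))]
        have := hm4 n k
        gcongr)
    rwa [tsum_zero] at h1
  have hSn : ∀ n, ∑' k, m n k * ‖(inner ℂ (D.W k D.h) (vn n) : ℂ)‖ ^ 2 ≤
      2 * ∑' k, m n k * ‖(inner ℂ (D.W k D.h) v : ℂ)‖ ^ 2 + 8 * (D.C * ‖vn n - v‖ ^ 2) := by
    intro n
    have hs1 : Summable (fun k => m n k * ‖(inner ℂ (D.W k D.h) v : ℂ)‖ ^ 2) := by
      apply Summable.of_nonneg_of_le (fun k => mul_nonneg (hm0 n k) (sq_nonneg _)) _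
        ((D.besh v).1.mul_left 4)
      intro k
      have := hm4 n k
      gcongr
    have hs2 : Summable (fun k => m n k * ‖(inner ℂ (D.W k D.h) (vn n) : ℂ)‖ ^ 2) := by
      apply Summable.of_nonneg_of_le (fun k => mul_nonneg (hm0 n k) (sq_nonneg _)) _
        ((D.besh (vn n)).1.mul_left 4)
      intro k
      have := hm4 n k
      gcongr
    obtain ⟨hs3, hs4⟩ := D.besh (vn n - v)
    calc ∑' k, m n k * ‖(inner ℂ (D.W k D.h) (vn n) : ℂ)‖ ^ 2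
        ≤ ∑' k, (2 * (m n k * ‖(inner ℂ (D.W k D.h) v : ℂ)‖ ^ 2) +
          8 * ‖(inner ℂ (D.W k D.h) (vn n - v) : ℂ)‖ ^ 2) := by
          apply hs2.tsum_le_tsum _ ((hs1.mul_left 2).add (hs3.mul_left 8))
          intro k
          have e : (inner ℂ (D.W k D.h) (vn n) : ℂ) = inner ℂ (D.W k D.h) v +
            inner ℂ (D.W k D.h) (vn n - v) := by
            rw [inner_sub_right]; ring
          rw [e]
          have h1 := norm_add_le (inner ℂ (D.W k D.h) v : ℂ) (inner ℂ (D.W k D.h) (vn n - v))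
          have h2 : ‖(inner ℂ (D.W k D.h) v : ℂ) + inner ℂ (D.W k D.h) (vn n - v)‖ ^ 2 ≤
              2 * ‖(inner ℂ (D.W k D.h) v : ℂ)‖ ^ 2 +
              2 * ‖(inner ℂ (D.W k D.h) (vn n - v) : ℂ)‖ ^ 2 := by
            nlinarith [norm_nonneg ((inner ℂ (D.W k D.h) v : ℂ) + inner ℂ (D.W k D.h) (vn n - v)),
              sq_nonneg (‖(inner ℂ (D.W k D.h) v : ℂ)‖ - ‖(inner ℂ (D.W k D.h) (vn n - v) : ℂ)‖)]
          have h3 := hm0 n k
          have h4 := hm4 n k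
          have h5 : 0 ≤ ‖(inner ℂ (D.W k D.h) (vn n - v) : ℂ)‖ ^ 2 := sq_nonneg _
          calc m n k * ‖(inner ℂ (D.W k D.h) v : ℂ) + inner ℂ (D.W k D.h) (vn n - v)‖ ^ 2
              ≤ m n k * (2 * ‖(inner ℂ (D.W k D.h) v : ℂ)‖ ^ 2 +
                2 * ‖(inner ℂ (D.W k D.h) (vn n - v) : ℂ)‖ ^ 2) := by gcongr
            _ ≤ _ := by nlinarith
      _ = 2 * ∑' k, m n k * ‖(inner ℂ (D.W k D.h) v : ℂ)‖ ^ 2 +
          8 * ∑' k, ‖(inner ℂ (D.W k D.h) (vn n - v) : ℂ)‖ ^ 2 := by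
          rw [(hs1.mul_left 2).tsum_add (hs3.mul_left 8), tsum_mul_left, tsum_mul_left]
      _ ≤ _ := by gcongr
  have hmain : ∀ n, (c * ‖(inner ℂ D.h (V' n (U n D.g)) : ℂ)‖) ^ 2 ≤ D.C ^ 3 * K ^ 2 *
      (2 * ∑' k, m n k * ‖(inner ℂ (D.W k D.h) v : ℂ)‖ ^ 2 + 8 * (D.C * ‖vn n - v‖ ^ 2)) := by
    intro n
    have hεn := hε n
    have h1 := estimate (hU n) (hU' n) (hV n) (hV' n) (hω n)
    have h2 : ∑' k, ‖conj (χ n k) * ψ n k - 1‖ ^ 2 *
        ‖(inner ℂ (D.W k D.h) (V' n D.g - D.g) : ℂ)‖ ^ 2 =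
        ε n ^ 2 * ∑' k, m n k * ‖(inner ℂ (D.W k D.h) (vn n) : ℂ)‖ ^ 2 := by
      rw [← tsum_mul_left]
      apply tsum_congr
      intro k
      have e : V' n D.g - D.g = (ε n : ℂ) • vn n := by
        rw [hvn]
        simp only
        rw [smul_smul, mul_inv_cancel₀ (by exact_mod_cast hεn.ne'), one_smul]
      rw [e, inner_smul_right, norm_mul, Complex.norm_real, Real.norm_of_nonneg hεn.le, mul_pow]
      ring
    rw [h2] at h1
    have h3 := hωc n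
    have h4 := hK n
    have hX : 0 ≤ ∑' k, m n k * ‖(inner ℂ (D.W k D.h) (vn n) : ℂ)‖ ^ 2 :=
      tsum_nonneg fun k => mul_nonneg (hm0 n k) (sq_nonneg _)
    have h5 : (c * ε n ^ 2 * ‖(inner ℂ D.h (V' n (U n D.g)) : ℂ)‖) ^ 2 ≤
        D.C ^ 3 * (K * ε n) ^ 2 * (ε n ^ 2 *
          ∑' k, m n k * ‖(inner ℂ (D.W k D.h) (vn n) : ℂ)‖ ^ 2) := by
      calc (c * ε n ^ 2 * ‖(inner ℂ D.h (V' n (U n D.g)) : ℂ)‖) ^ 2
          ≤ (‖1 - ω n‖ * ‖(inner ℂ D.h (V' n (U n D.g)) : ℂ)‖) ^ 2 := by gcongr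
        _ ≤ _ := h1
        _ ≤ _ := by gcongr
    have h6 : ε n ^ 4 * (c * ‖(inner ℂ D.h (V' n (U n D.g)) : ℂ)‖) ^ 2 ≤
        ε n ^ 4 * (D.C ^ 3 * K ^ 2 *
          ∑' k, m n k * ‖(inner ℂ (D.W k D.h) (vn n) : ℂ)‖ ^ 2) := by
      calc ε n ^ 4 * (c * ‖(inner ℂ D.h (V' n (U n D.g)) : ℂ)‖) ^ 2
          = (c * ε n ^ 2 * ‖(inner ℂ D.h (V' n (U n D.g)) : ℂ)‖) ^ 2 := by ring
        _ ≤ _ := h5
        _ = _ := by ring
    have h7 := le_of_mul_le_mul_left h6 (by positivity)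
    refine h7.trans ?_
    have := hSn n
    gcongr
  have hlim1 : Tendsto (fun n => (c * ‖(inner ℂ D.h (V' n (U n D.g)) : ℂ)‖) ^ 2) atTop
      (𝓝 ((c * 1) ^ 2)) := by
    apply Tendsto.pow
    apply Tendsto.const_mul
    have h1 : Tendsto (fun n => ‖(inner ℂ D.h (V' n (U n D.g)) : ℂ)‖) atTop
        (𝓝 ‖(inner ℂ D.h D.g : ℂ)‖) := (tendsto_const_nhds.inner hUV).norm
    rwa [D.bio0, norm_one] at h1
  have hlim2 : Tendsto (fun n => D.C ^ 3 * K ^ 2 *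
      (2 * ∑' k, m n k * ‖(inner ℂ (D.W k D.h) v : ℂ)‖ ^ 2 + 8 * (D.C * ‖vn n - v‖ ^ 2))) atTop
      (𝓝 (D.C ^ 3 * K ^ 2 * (2 * 0 + 8 * (D.C * ‖v - v‖ ^ 2)))) := by
    apply Tendsto.const_mul
    apply Tendsto.add
    · exact hS1.const_mul 2
    · apply Tendsto.const_mul
      apply Tendsto.const_mul
      apply Tendsto.pow
      exact (hv.sub_const v).norm
  have hle := le_of_tendsto_of_tendsto' hlim1 hlim2 hmain
  rw [sub_self, norm_zero] at hle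
  norm_num at hle
  have : 0 < c ^ 2 := by positivity
  nlinarith

end Data

end Pool.Agent.V11113.BL
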