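import Pool.Agent.V11113.BL.Conc

/-!
# The Balian-Low theorem: regularity of the window
-/

set_option autoImplicit false
open Filter Topology ComplexConjugate MeasureTheory Set

namespace Pool.Agent.V11113.BL

open Pool.Agent.Y165.GO (tfn mdn norm_mdn mdn_add mdn_sub coeFn_tfn)

variable {n : ℕ}

/-- `h` is the weak derivative of `g` in the direction `e`. -/
def IsWeakDeriv (e : Fin n → ℝ) (g h : (Fin n → ℝ) → ℂ) : Prop :=
  ∀ φ : (Fin n → ℝ) → ℂ, ContDiff ℝ ((⊤ : ℕ∞) : WithTop ℕ∞) φ → HasCompactSupport φ →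
    ∫ x, g x * fderiv ℝ φ x e = - ∫ x, h x * φ x

lemma inner_tfn (e : Fin n → ℝ) (φ : (Fin n → ℝ) → ℂ) (hφ : MemLp φ 2 volume)
    (u : (Fin n → ℝ) → ℂ) (hu : MemLp u 2 volume) (t : ℝ) :
    (inner ℂ (hφ.toLp φ) (tfn (t • e) 0 (hu.toLp u)) : ℂ) =
      ∫ x, u x * conj (φ (x + t • e)) := by
  have h1 : (inner ℂ (hφ.toLp φ) (tfn (t • e) 0 (hu.toLp u)) : ℂ) =
      ∫ x, (u (x - t • e)) * conj (φ x) := by
    rw [L2.inner_def]
    apply integral_congr_ae
    have a1 := hφ.coeFn_toLp
    have a2 := coeFn_tfn (t • e) 0 (hu.toLp u)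
    have a3 := (measurePreserving_sub_right (volume : Measure (Fin n → ℝ))
      (t • e)).quasiMeasurePreserving.ae hu.coeFn_toLp
    filter_upwards [a1, a2, a3] with x h1 h2 h3
    rw [h1, h2, h3, mdn_zero, one_mul]
    rfl
  rw [h1, ← integral_add_right_eq_self (μ := (volume : Measure (Fin n → ℝ)))
    (fun x => u (x - t • e) * conj (φ x)) (t • e)]
  simp only [add_sub_cancel_right]

lemma hasDerivAt_F (e : Fin n → ℝ) (g h : (Fin n → ℝ) → ℂ) (hg : MemLp g 2 volume)
    (hw : IsWeakDeriv e g h) (ψ : (Fin n → ℝ) → ℂ)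
    (hψ : ContDiff ℝ ((⊤ : ℕ∞) : WithTop ℕ∞) ψ) (hc : HasCompactSupport ψ) (t : ℝ) :
    HasDerivAt (fun r : ℝ => ∫ x, g x * ψ (x + r • e)) (- ∫ x, h x * ψ (x + t • e)) t := by
  have hψc : Continuous ψ := hψ.continuous
  have hd : Differentiable ℝ ψ := hψ.differentiable (by simp)
  have hdc : Continuous (fderiv ℝ ψ) := hψ.continuous_fderiv (by simp)
  have hdcs : HasCompactSupport (fderiv ℝ ψ) := hc.fderiv ℝ
  obtain ⟨R, hR⟩ : ∃ R : ℝ, ∀ x, R < ‖x‖ → fderiv ℝ ψ x = 0 := by
    obtain ⟨R, hR⟩ := hdcs.isCompact.isBounded.subset_closedBall (0 : Fin n → ℝ)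
    refine ⟨R, fun x hx => ?_⟩
    by_contra hne
    have := hR (subset_tsupport _ hne)
    rw [mem_closedBall_zero_iff] at this
    linarith
  obtain ⟨C, hC⟩ := hdc.bounded_above_of_compact_support hdcs
  have hC0 : 0 ≤ C := (norm_nonneg _).trans (hC 0)
  set R' := R + (|t| + 1) * ‖e‖ with hR'
  -- the dominating function
  set bound : (Fin n → ℝ) → ℝ := (Metric.closedBall (0 : Fin n → ℝ) R').indicator
    (fun x => ‖g x‖ * (C * ‖e‖)) with hbound
  have hgi : IntegrableOn (fun x => ‖g x‖) (Metric.closedBall (0 : Fin n → ℝ) R') volume := by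
    have h1 : MemLp g 2 (volume.restrict (Metric.closedBall (0 : Fin n → ℝ) R')) := hg.restrict _
    have : IsFiniteMeasure (volume.restrict (Metric.closedBall (0 : Fin n → ℝ) R')) := by
      constructor
      rw [Measure.restrict_apply_univ]
      exact measure_closedBall_lt_top
    exact (h1.integrable one_le_two).norm
  have hbi : Integrable bound volume := by
    rw [hbound, integrable_indicator_iff measurableSet_closedBall]
    exact hgi.mul_const _
  have key := hasDerivAt_integral_of_dominated_loc_of_deriv_le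
    (F := fun (r : ℝ) (x : Fin n → ℝ) => g x * ψ (x + r • e))
    (F' := fun (r : ℝ) (x : Fin n → ℝ) => g x * fderiv ℝ ψ (x + r • e) e)
    (x₀ := t) (s := Metric.ball t 1) (bound := bound) (μ := volume)
    (Metric.ball_mem_nhds t one_pos)
    (Eventually.of_forall fun r => hg.1.mul (by
      apply Continuous.aestronglyMeasurable
      fun_prop))
    (by
      have h1 : MemLp (fun x => ψ (x + t • e)) 2 volume := by
        have h2 : MemLp ψ 2 volume := hψc.memLp_of_hasCompactSupport hc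
        exact h2.comp_measurePreserving (measurePreserving_add_right volume (t • e))
      exact hg.integrable_mul h1)
    (hg.1.mul (by
      apply Continuous.aestronglyMeasurable
      fun_prop))
    (Eventually.of_forall fun x r hr => by
      rw [hbound]
      by_cases hx : x ∈ Metric.closedBall (0 : Fin n → ℝ) R'
      · rw [indicator_of_mem hx, norm_mul]
        have h1 := (fderiv ℝ ψ (x + r • e)).le_opNorm e
        have h2 := hC (x + r • e)
        have h3 : ‖fderiv ℝ ψ (x + r • e) e‖ ≤ C * ‖e‖ := h1.trans (by gcongr)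
        gcongr
      · rw [indicator_of_notMem hx]
        have h1 : fderiv ℝ ψ (x + r • e) = 0 := by
          apply hR
          rw [mem_closedBall_zero_iff, not_le, hR'] at hx
          have h2 : |r| ≤ |t| + 1 := by
            rw [Metric.mem_ball, Real.dist_eq] at hr
            have := abs_sub_abs_le_abs_sub r t
            linarith
          have h3 : ‖x‖ ≤ ‖x + r • e‖ + |r| * ‖e‖ := by
            have h4 : x = (x + r • e) - r • e := by abel
            calc ‖x‖ = ‖(x + r • e) - r • e‖ := by rw [← h4]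
              _ ≤ ‖x + r • e‖ + ‖r • e‖ := norm_sub_le _ _
              _ = _ := by rw [norm_smul, Real.norm_eq_abs]
          have h5 : |r| * ‖e‖ ≤ (|t| + 1) * ‖e‖ := by gcongr
          linarith
        rw [h1]
        simp)
    hbi
    (Eventually.of_forall fun x r _ => by
      have h1 : HasDerivAt (fun r : ℝ => x + r • e) e r := by
        have := ((hasDerivAt_id r).smul_const e).const_add x
        simpa using this
      have h2 := (hd (x + r • e)).hasFDerivAt.comp_hasDerivAt r h1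
      exact h2.const_mul (g x))
  have h2 := key.2
  have h3 : ∫ x, g x * fderiv ℝ ψ (x + t • e) e = - ∫ x, h x * ψ (x + t • e) := by
    have h4 := hw (fun x => ψ (x + t • e)) (hψ.comp (contDiff_id.add contDiff_const))
      (hc.comp_homeomorph (Homeomorph.addRight (t • e)))
    rw [← h4]
    apply integral_congr_ae
    filter_upwards with x
    congr 1
    have h5 : fderiv ℝ (fun x => ψ (x + t • e)) x = fderiv ℝ ψ (x + t • e) :=
      fderiv_comp_add_right _
    rw [h5]
  rw [h3] at h2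
  exact h2

/-- **Lipschitz estimate for translations.** -/
theorem lip_of_weak (e : Fin n → ℝ) (g h : (Fin n → ℝ) → ℂ) (hg : MemLp g 2 volume)
    (hh : MemLp h 2 volume) (hw : IsWeakDeriv e g h) (t : ℝ) :
    ‖tfn (t • e) 0 (hg.toLp g) - hg.toLp g‖ ≤ |t| * ‖hh.toLp h‖ := by
  set G := hg.toLp g with hG
  set Hh := hh.toLp h with hHh
  set w := tfn (t • e) 0 G - G with hw'
  have key : ∀ Φ : HH n, ‖(inner ℂ Φ w : ℂ)‖ ≤ ‖Φ‖ * (|t| * ‖Hh‖) := by
    intro Φ
    have hdense := Lp.dense_hasCompactSupport_contDiff (E := Fin n → ℝ) (F := ℂ)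
      (μ := (volume : Measure (Fin n → ℝ))) (p := 2) (by norm_num)
    apply hdense.induction (P := fun Φ : HH n => ‖(inner ℂ Φ w : ℂ)‖ ≤ ‖Φ‖ * (|t| * ‖Hh‖)) ?_ ?_ Φ
    · rintro Φ ⟨φ, hφ1, hφ2, hφ3⟩
      have hφm : MemLp φ 2 volume := hφ3.continuous.memLp_of_hasCompactSupport hφ2
      have hΦ : Φ = hφm.toLp φ := by
        apply Lp.ext
        exact hφ1.trans hφm.coeFn_toLp.symm
      have hψ : ContDiff ℝ ((⊤ : ℕ∞) : WithTop ℕ∞) (fun x => conj (φ x)) :=
        Complex.conjCLE.contDiff.comp hφ3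
      have hψc : HasCompactSupport (fun x => conj (φ x)) := by
        apply hφ2.comp_left (g := fun z : ℂ => conj z)
        exact map_zero _
      have hF := fun r : ℝ => hasDerivAt_F e g h hg hw (fun x => conj (φ x)) hψ hψc r
      have hFe : ∀ r : ℝ, ∫ x, g x * conj (φ (x + r • e)) =
          (inner ℂ Φ (tfn (r • e) 0 G) : ℂ) := by
        intro r
        rw [hΦ, hG, inner_tfn]
      have hFd : ∀ r : ℝ, ‖- ∫ x, h x * conj (φ (x + r • e))‖ ≤ ‖Φ‖ * ‖Hh‖ := by
        intro r
        have h1 : ∫ x, h x * conj (φ (x + r • e)) = (inner ℂ Φ (tfn (r • e) 0 Hh) : ℂ) := by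
          rw [hΦ, hHh, inner_tfn]
        rw [norm_neg, h1]
        refine (norm_inner_le_norm _ _).trans ?_
        rw [(tfn (r • e) 0).norm_map]
      have hmv := Convex.norm_image_sub_le_of_norm_hasDerivWithin_le (𝕜 := ℝ) (s := Set.univ)
        (f := fun r : ℝ => ∫ x, g x * conj (φ (x + r • e)))
        (f' := fun r => - ∫ x, h x * conj (φ (x + r • e))) (C := ‖Φ‖ * ‖Hh‖)
        (fun r _ => (hF r).hasDerivWithinAt) (fun r _ => hFd r) convex_univ
        (Set.mem_univ (0 : ℝ)) (Set.mem_univ t)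
      rw [hFe, hFe, sub_zero, Real.norm_eq_abs, zero_smul] at hmv
      have h2 : (inner ℂ Φ w : ℂ) = inner ℂ Φ (tfn (t • e) 0 G) - inner ℂ Φ (tfn 0 0 G) := by
        rw [hw', inner_sub_right, tfn_zero]
      rw [h2]
      refine hmv.trans (le_of_eq ?_)
      ring
    · exact isClosed_le (by fun_prop) (by fun_prop)
  have h1 := key w
  rw [inner_self_eq_norm_sq_to_K] at h1
  have h2 : ‖((‖w‖ : ℝ) : ℂ) ^ 2‖ = ‖w‖ ^ 2 := by
    rw [norm_pow, Complex.norm_real, norm_norm]
  have h3 : ‖w‖ ^ 2 ≤ ‖w‖ * (|t| * ‖Hh‖) := by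
    rw [← h2]
    exact h1
  rcases eq_or_lt_of_le (norm_nonneg w) with h4 | h4
  · rw [← h4]; positivity
  · have h5 : ‖w‖ * ‖w‖ ≤ ‖w‖ * (|t| * ‖Hh‖) := by nlinarith
    exact le_of_mul_le_mul_left h5 h4

end Pool.Agent.V11113.BL
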